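import Pool.Agent.Helper82.Circ.Refl
set_option autoImplicit false

/-!
Charts of the unfolded space.
-/

open Topology Set Function

namespace Pool.Agent.Helper35.CircCh
open Pool.Agent.Helper82.Circ

set_option linter.unusedSectionVars false

theorem mem_closure_of_par {S : Type} {comm : S → S → Prop} {Z M : Set S}
    (hZ : ∀ s ∈ Z, ∀ t ∈ Z, s ≠ t → comm s t) {g : Racg comm}
    (hg : g ∈ Subgroup.closure (gen comm '' Z)) (hM : ∀ s, par g s ≠ 0 → s ∈ M) :
    g ∈ Subgroup.closure (gen comm '' M) := by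
  classical
  have hsub : (((par g).support : Finset S) : Set S) ⊆ Z ∩ M := by
    intro s hs
    have hs' : par g s ≠ 0 := by simpa using hs
    exact ⟨par_of_mem_closure hg hs', hM s hs'⟩
  obtain ⟨g', hg', hp⟩ := exists_par (comm := comm) (par g).support hsub
  have h1 : g = g' := by
    refine clique_ext hZ hg (Subgroup.closure_mono (image_mono inter_subset_left) hg') ?_
    ext s
    have h3 := hp s
    rw [Finsupp.mem_support_iff] at h3
    rcases zmod2_cases (par g s) with h0 | h0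
    · rcases zmod2_cases (par g' s) with h2 | h2
      · rw [h0, h2]
      · exact absurd h0 (h3.1 h2)
    · rw [h0, h3.2 (by rw [h0]; decide)]
  rw [h1]
  exact Subgroup.closure_mono (image_mono inter_subset_right) hg'

variable {E R B T : Type} [Group E] [PartialOrder R] [MulAction E R] [Fintype B]
  {D : CD R} {d : R → B → ℝ} {τ : R → T} {z : E} (h : MDz E R B T D d τ z)

theorem refl_pos {p : SS h →₀ ZMod 2} (X : R → ℝ) {s : SS h} (hs : p s = 1) :
    refl h p X s.val = 2 * D.mass X - X s.val := if_pos ⟨s, rfl, hs⟩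

theorem refl_neg {p : SS h →₀ ZMod 2} (X : R → ℝ) {s : SS h} (hs : p s ≠ 1) :
    refl h p X s.val = X s.val := if_neg (by
  rintro ⟨s', h1, h2⟩
  rw [SS.ext h1] at h2
  exact hs h2)

theorem refl_Kp (p : SS h →₀ ZMod 2) (X : R → ℝ) {r : R} (hr : r ∈ D.Kp) :
    refl h p X r = X r := if_neg (by
  rintro ⟨s', h1, h2⟩
  exact s'.prop (h1 ▸ hr))

theorem mass_refl (p : SS h →₀ ZMod 2) (X : R → ℝ) : D.mass (refl h p X) = D.mass X :=
  mass_congr fun _ hk => refl_Kp h p X hk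

theorem refl_mir (p : SS h →₀ ZMod 2) {X : CH h} {s : SS h} (hs : s ∈ mirS h X) :
    refl h p X.val s.val = D.mass X.val := by
  have h1 : X.val s.val = D.mass X.val := hs.2
  by_cases h2 : p s = 1
  · rw [refl_pos h _ h2, h1]; ring
  · rw [refl_neg h _ h2, h1]

theorem refl_congr {p q : SS h →₀ ZMod 2} {X : CH h} (hpq : ∀ s, p s ≠ q s → s ∈ mirS h X) :
    refl h p X.val = refl h q X.val := by
  funext r
  by_cases hr : r ∈ D.Kp
  · rw [refl_Kp h _ _ hr, refl_Kp h _ _ hr]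
  · have hs : (SS.mk h r hr).val = r := rfl
    rw [← hs]
    by_cases e : p (SS.mk h r hr) = q (SS.mk h r hr)
    · by_cases e1 : q (SS.mk h r hr) = 1
      · rw [refl_pos h _ e1, refl_pos h _ (e.trans e1)]
      · rw [refl_neg h _ e1, refl_neg h _ (by rw [e]; exact e1)]
    · rw [refl_mir h _ (hpq _ e), refl_mir h _ (hpq _ e)]

theorem continuous_mass' : Continuous fun X : CH h => D.mass X.val := CD.continuous_mass_ch

theorem continuous_refl (p : SS h →₀ ZMod 2) : Continuous fun X : CH h => refl h p X.val := by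
  refine continuous_pi fun r => ?_
  have h1 := CH.continuous_apply h r
  have h2 := continuous_mass' h
  by_cases hc : ∃ s : SS h, s.val = r ∧ p s = 1
  · have : (fun X : CH h => refl h p X.val r) = fun X => 2 * D.mass X.val - X.val r := by
      funext X
      exact if_pos hc
    rw [this]
    exact (continuous_const.mul h2).sub h1
  · have : (fun X : CH h => refl h p X.val r) = fun X => X.val r := by
      funext X
      exact if_neg hc
    rw [this]
    exact h1

/-- the developing coordinates -/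
noncomputable def FF (w : WW h) : UU h → R → ℝ :=
  Unf.lift (m := mirs h) (fun v X => refl h (par (w⁻¹ * v)) X.val) (by
    intro v v' X hv
    refine refl_congr h fun s hs => ?_
    refine par_of_mem_closure hv ?_
    intro h0
    apply hs
    have e : w⁻¹ * v' = (w⁻¹ * v) * (v⁻¹ * v') := by group
    rw [e, par_mul (w⁻¹ * v), Finsupp.add_apply, h0, add_zero])

theorem FF_mk (w v : WW h) (X : CH h) :
    FF h w (Unf.mk (mirs h) v X) = refl h (par (w⁻¹ * v)) X.val := rfl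

theorem continuous_FF (w : WW h) : Continuous (FF h w) :=
  Unf.continuous_lift fun _ => continuous_refl h _

variable (w : WW h) {k : R} (hk : k ∈ D.Kp) {Z : Set (SS h)} (hZf : Z.Finite)
  (hZc : ∀ s ∈ Z, ∀ t ∈ Z, s ≠ t → cm h s t)

/-- small open set of the chamber -/
def OO (k : R) (Z : Set (SS h)) : Set (CH h) :=
  {X | X.val k ≠ 0 ∧ (∀ s ∈ Z, X.val s.val ≠ 0) ∧ mirS h X ⊆ Z}

include hZf in
theorem isOpen_OO : IsOpen (OO h k Z) := by
  have h1 : IsOpen {X : CH h | X.val k ≠ 0} := isOpen_ne.preimage (CH.continuous_apply h k)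
  have h2 : IsOpen {X : CH h | ∀ s ∈ Z, X.val s.val ≠ 0} := by
    have : {X : CH h | ∀ s ∈ Z, X.val s.val ≠ 0} = ⋂ s ∈ Z, {X : CH h | X.val s.val ≠ 0} := by
      ext X; simp
    rw [this]
    exact hZf.isOpen_biInter fun s _ => isOpen_ne.preimage (CH.continuous_apply h s.val)
  have h3 : IsOpen {X : CH h | mirS h X ⊆ Z} := by
    rw [isOpen_iff_mem_nhds]
    intro X hX
    filter_upwards [(mirs h).nhds X] with X' hX'
    exact hX'.trans hX
  exact h1.inter (h2.inter h3)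

theorem OO_mir : ∀ X ∈ OO h k Z, (mirs h).mir X ⊆ Z := fun _ hX => hX.2.2

/-- target -/
def TT (k : R) (Z : Set (SS h)) : Set {X : R → ℝ // X ∈ D.Y ∧ X k ≠ 0} :=
  {Y | (∀ s ∈ Z, 0 < Y.1 s.val ∧ Y.1 s.val < 2 * D.mass Y.1) ∧ ∀ s ∉ Z, Y.1 s.val < D.mass Y.1}

theorem continuous_massA : Continuous fun Y : {X : R → ℝ // X ∈ D.Y ∧ X k ≠ 0} => D.mass Y.1 := by
  have h1 : Continuous fun Y : {X : R → ℝ // X ∈ D.Y ∧ X k ≠ 0} => (⟨Y.1, Y.2.1⟩ : D.Y) :=
    continuous_subtype_val.subtype_mk _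
  exact CD.continuous_mass.comp h1

theorem continuous_coordA (r : R) :
    Continuous fun Y : {X : R → ℝ // X ∈ D.Y ∧ X k ≠ 0} => Y.1 r :=
  (continuous_apply r).comp continuous_subtype_val

include hZf hk in
theorem isOpen_TT : IsOpen (TT h k Z) := by
  have hfin : {s : SS h | s.val ≤ k ∨ k ≤ s.val}.Finite :=
    (D.fin k hk).preimage (f := SS.val) (fun s _ s' _ hss => SS.ext hss)
  have e : TT h k Z = (⋂ s ∈ Z, {Y | 0 < Y.1 s.val ∧ Y.1 s.val < 2 * D.mass Y.1}) ∩
      ⋂ s ∈ {s : SS h | s.val ≤ k ∨ k ≤ s.val}, {Y | s ∉ Z → Y.1 s.val < D.mass Y.1} := by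
    ext Y
    simp only [TT, Set.mem_inter_iff, Set.mem_iInter, Set.mem_ofPred_eq]
    refine ⟨fun hY => ⟨hY.1, fun s _ => hY.2 s⟩, fun hY => ⟨hY.1, fun s hs => ?_⟩⟩
    by_cases h0 : Y.1 s.val = 0
    · rw [h0]
      exact CD.mass_pos Y.2.1
    · exact hY.2 s (Y.2.1.2.1 _ _ h0 Y.2.2) hs
  rw [e]
  refine (hZf.isOpen_biInter fun s _ => ?_).inter (hfin.isOpen_biInter fun s _ => ?_)
  · exact (isOpen_lt continuous_const (continuous_coordA s.val)).inter
      (isOpen_lt (continuous_coordA s.val) (continuous_const.mul continuous_massA))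
  · by_cases hs : s ∈ Z
    · have : {Y : {X : R → ℝ // X ∈ D.Y ∧ X k ≠ 0} | s ∉ Z → Y.1 s.val < D.mass Y.1} = univ := by
        ext Y; simp [hs]
      rw [this]
      exact isOpen_univ
    · have : {Y : {X : R → ℝ // X ∈ D.Y ∧ X k ≠ 0} | s ∉ Z → Y.1 s.val < D.mass Y.1} =
          {Y | Y.1 s.val < D.mass Y.1} := by
        ext Y; simp [hs]
      rw [this]
      exact isOpen_lt (continuous_coordA s.val) continuous_massA

/-- a point of the chamber reflected in coordinates where it is nonzero -/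
theorem refl_mem {p : SS h →₀ ZMod 2} {X : CH h} (hp : ∀ s, p s = 1 → X.val s.val ≠ 0) :
    refl h p X.val ∈ D.Y := by
  have hm := CD.mass_pos X.mem.1
  have key : ∀ r, 0 ≤ refl h p X.val r ∧ (refl h p X.val r ≠ 0 → X.val r ≠ 0) := by
    intro r
    by_cases hr : r ∈ D.Kp
    · rw [refl_Kp h _ _ hr]
      exact ⟨X.mem.1.1 r, id⟩
    · have hs : (SS.mk h r hr).val = r := rfl
      rw [← hs]
      by_cases e1 : p (SS.mk h r hr) = 1
      · rw [refl_pos h _ e1]
        have := X.mem.2 r hr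
        rw [hs]
        exact ⟨by linarith, fun _ => hp _ e1⟩
      · rw [refl_neg h _ e1]
        exact ⟨X.mem.1.1 _, id⟩
  obtain ⟨k, hk, hk0⟩ := X.mem.1.2.2
  exact ⟨fun r => (key r).1, fun r r' hr hr' => X.mem.1.2.1 r r' ((key r).2 hr) ((key r').2 hr'),
    k, hk, by rw [refl_Kp h _ _ hk]; exact hk0⟩

include hk in
theorem FF_mem {u : UU h} (hu : u ∈ Unf.basic (mirs h) w Z (OO h k Z)) :
    ∃ hm : FF h w u ∈ D.Y ∧ FF h w u k ≠ 0, (⟨FF h w u, hm⟩ : {X : R → ℝ // X ∈ D.Y ∧ X k ≠ 0}) ∈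
      TT h k Z := by
  obtain ⟨v, X, rfl⟩ := Unf.exists_rep u
  rw [Unf.mk_mem_basic (OO_mir h)] at hu
  obtain ⟨⟨h1, h2, h3⟩, h4⟩ := hu
  rw [FF_mk]
  have hp : ∀ s, par (w⁻¹ * v) s = 1 → s ∈ Z := fun s hs =>
    par_of_mem_closure h4 (by rw [hs]; decide)
  have hm := CD.mass_pos X.mem.1
  refine ⟨⟨refl_mem h fun s hs => h2 s (hp s hs), by rw [refl_Kp h _ _ hk]; exact h1⟩, ?_, ?_⟩
  · intro s hs
    change 0 < refl h (par (w⁻¹ * v)) X.val s.val ∧ refl h (par (w⁻¹ * v)) X.val s.val <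
      2 * D.mass (refl h (par (w⁻¹ * v)) X.val)
    rw [mass_refl]
    have h5 : 0 < X.val s.val := lt_of_le_of_ne (X.mem.1.1 _) (h2 s hs).symm
    have h6 := X.mem.2 s.val s.prop
    by_cases e1 : par (w⁻¹ * v) s = 1
    · rw [refl_pos h _ e1]
      constructor <;> linarith
    · rw [refl_neg h _ e1]
      constructor <;> linarith
  · intro s hs
    change refl h (par (w⁻¹ * v)) X.val s.val < D.mass (refl h (par (w⁻¹ * v)) X.val)
    rw [mass_refl, refl_neg h _ (fun e => hs (hp s e))]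
    refine lt_of_le_of_ne (X.mem.2 s.val s.prop) fun e => hs (h3 ⟨s.prop, e⟩)

open Classical in
/-- folding back -/
noncomputable def foldf (Z : Set (SS h)) (Y : R → ℝ) : R → ℝ :=
  fun r => if ∃ s ∈ Z, SS.val s = r then min (Y r) (2 * D.mass Y - Y r) else Y r

theorem foldf_pos (Y : R → ℝ) {s : SS h} (hs : s ∈ Z) :
    foldf h Z Y s.val = min (Y s.val) (2 * D.mass Y - Y s.val) := if_pos ⟨s, hs, rfl⟩

theorem foldf_neg (Y : R → ℝ) {s : SS h} (hs : s ∉ Z) :
    foldf h Z Y s.val = Y s.val := if_neg (by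
  rintro ⟨s', h1, h2⟩
  rw [SS.ext h2] at h1
  exact hs h1)

theorem foldf_Kp (Y : R → ℝ) {r : R} (hr : r ∈ D.Kp) : foldf h Z Y r = Y r := if_neg (by
  rintro ⟨s', _, h2⟩
  exact s'.prop (h2 ▸ hr))

theorem mass_foldf (Y : R → ℝ) : D.mass (foldf h Z Y) = D.mass Y :=
  mass_congr fun _ hk => foldf_Kp h Y hk

theorem foldf_mem {Y : {X : R → ℝ // X ∈ D.Y ∧ X k ≠ 0}} (hY : Y ∈ TT h k Z) :
    foldf h Z Y.1 ∈ D.Ch := by
  have key : ∀ r, 0 ≤ foldf h Z Y.1 r ∧ (foldf h Z Y.1 r ≠ 0 → Y.1 r ≠ 0) ∧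
      (r ∉ D.Kp → foldf h Z Y.1 r ≤ D.mass Y.1) := by
    intro r
    by_cases hr : r ∈ D.Kp
    · rw [foldf_Kp h _ hr]
      exact ⟨Y.2.1.1 r, id, fun h1 => absurd hr h1⟩
    · have hs : (SS.mk h r hr).val = r := rfl
      rw [← hs]
      by_cases e1 : (SS.mk h r hr) ∈ Z
      · rw [foldf_pos h _ e1]
        have h1 := hY.1 _ e1
        refine ⟨le_min h1.1.le (by linarith), fun _ => h1.1.ne', fun _ => ?_⟩
        rcases le_total (Y.1 (SS.mk h r hr).val) (D.mass Y.1) with h2 | h2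
        · exact (min_le_left _ _).trans h2
        · exact (min_le_right _ _).trans (by linarith)
      · rw [foldf_neg h _ e1]
        exact ⟨Y.2.1.1 _, id, fun _ => (hY.2 _ e1).le⟩
  obtain ⟨k', hk', hk0'⟩ := Y.2.1.2.2
  refine ⟨⟨fun r => (key r).1, fun r r' hr hr' => Y.2.1.2.1 r r' ((key r).2.1 hr) ((key r').2.1 hr'),
    k', hk', by rw [foldf_Kp h _ hk']; exact hk0'⟩, fun r hr => ?_⟩
  rw [mass_foldf]
  exact (key r).2.2 hr

theorem continuous_foldf : Continuous fun Y : TT h k Z => CH.mk h (foldf h Z Y.1.1) (foldf_mem h Y.2) := by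
  refine CH.continuous_mk h (continuous_pi fun r => ?_) _
  have h1 : Continuous fun Y : TT h k Z => Y.1.1 r := (continuous_coordA r).comp continuous_subtype_val
  have h2 : Continuous fun Y : TT h k Z => D.mass Y.1.1 := continuous_massA.comp continuous_subtype_val
  by_cases hc : ∃ s ∈ Z, SS.val s = r
  · have : (fun Y : TT h k Z => foldf h Z Y.1.1 r) =
        fun Y => min (Y.1.1 r) (2 * D.mass Y.1.1 - Y.1.1 r) := by
      funext Y
      exact if_pos hc
    rw [this]
    exact h1.min ((continuous_const.mul h2).sub h1)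
  · have : (fun Y : TT h k Z => foldf h Z Y.1.1 r) = fun Y => Y.1.1 r := by
      funext Y
      exact if_neg hc
    rw [this]
    exact h1

open Classical in
theorem exists_gT (T : Finset (SS h)) : ∃ g : WW h, ((T : Set (SS h)) ⊆ Z →
    g ∈ Subgroup.closure (gen (cm h) '' Z) ∧ ∀ s, par g s = 1 ↔ s ∈ T) := by
  by_cases hT : (T : Set (SS h)) ⊆ Z
  · obtain ⟨g, h1, h2⟩ := exists_par (comm := cm h) T hT
    exact ⟨g, fun _ => ⟨h1, h2⟩⟩
  · exact ⟨1, fun h => absurd h hT⟩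

/-- group element with prescribed parity -/
noncomputable def gT (Z : Set (SS h)) (T : Finset (SS h)) : WW h := (exists_gT h (Z := Z) T).choose

theorem gT_mem {T : Finset (SS h)} (hT : (T : Set (SS h)) ⊆ Z) :
    gT h Z T ∈ Subgroup.closure (gen (cm h) '' Z) := ((exists_gT h (Z := Z) T).choose_spec hT).1

theorem gT_par {T : Finset (SS h)} (hT : (T : Set (SS h)) ⊆ Z) (s : SS h) :
    par (gT h Z T) s = 1 ↔ s ∈ T := ((exists_gT h (Z := Z) T).choose_spec hT).2 s

open Classical in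
/-- the mirrors that have been crossed -/
noncomputable def crs (Y : R → ℝ) : Finset (SS h) :=
  hZf.toFinset.filter fun s => D.mass Y < Y s.val

theorem mem_crs {Y : R → ℝ} {s : SS h} : s ∈ crs h hZf Y ↔ s ∈ Z ∧ D.mass Y < Y s.val := by
  simp [crs]

theorem crs_sub (Y : R → ℝ) : (crs h hZf Y : Set (SS h)) ⊆ Z := by
  intro s hs
  exact ((mem_crs h hZf).1 (by simpa using hs)).1

/-- the inverse map -/
noncomputable def Gm (Y : TT h k Z) : UU h :=
  Unf.mk (mirs h) (w * gT h Z (crs h hZf Y.1.1)) (CH.mk h (foldf h Z Y.1.1) (foldf_mem h Y.2))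

include hZc in
theorem mk_eq (Y : TT h k Z) {T T' : Finset (SS h)} (hT : (T : Set (SS h)) ⊆ Z)
    (hT' : (T' : Set (SS h)) ⊆ Z)
    (hTT : ∀ s ∈ Z, (s ∈ T ↔ s ∉ T') → Y.1.1 s.val = D.mass Y.1.1) :
    Unf.mk (mirs h) (w * gT h Z T) (CH.mk h (foldf h Z Y.1.1) (foldf_mem h Y.2)) =
      Unf.mk (mirs h) (w * gT h Z T') (CH.mk h (foldf h Z Y.1.1) (foldf_mem h Y.2)) := by
  rw [Unf.mk_eq_mk]
  refine ⟨rfl, ?_⟩
  have e : (w * gT h Z T)⁻¹ * (w * gT h Z T') = (gT h Z T)⁻¹ * gT h Z T' := by group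
  rw [e]
  refine mem_closure_of_par hZc (Subgroup.mul_mem _ (Subgroup.inv_mem _ (gT_mem h hT))
    (gT_mem h hT')) fun s hs => ?_
  rw [par_mul, par_inv, Finsupp.add_apply] at hs
  have h1 := gT_par h hT s
  have h2 := gT_par h hT' s
  have h3 : s ∈ T ↔ s ∉ T' := by
    rcases zmod2_cases (par (gT h Z T) s) with h4 | h4 <;>
      rcases zmod2_cases (par (gT h Z T') s) with h5 | h5
    · rw [h4, h5] at hs; exact absurd (by decide) hs
    · rw [h4] at h1; rw [h5] at h2
      have : s ∉ T := fun h => absurd (h1.2 h) (by decide)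
      have : s ∈ T' := h2.1 rfl
      tauto
    · rw [h4] at h1; rw [h5] at h2
      have : s ∉ T' := fun h => absurd (h2.2 h) (by decide)
      have : s ∈ T := h1.1 rfl
      tauto
    · rw [h4, h5] at hs; exact absurd (by decide) hs
  have hsZ : s ∈ Z := by
    by_cases h4 : s ∈ T
    · exact hT h4
    · by_contra h5
      have h6 : s ∉ T' := fun h => h5 (hT' h)
      exact h4 (h3.2 h6)
  refine ⟨s.prop, ?_⟩
  change foldf h Z Y.1.1 s.val = D.mass (foldf h Z Y.1.1)
  rw [mass_foldf, foldf_pos h _ hsZ, hTT s hsZ h3]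
  rw [min_eq_left]
  linarith

include hZc in
theorem continuous_Gm : Continuous (Gm h w hZf (k := k)) := by
  classical
  let C : {T : Finset (SS h) // T ∈ hZf.toFinset.powerset} → Set (TT h k Z) := fun T =>
    {Y | (∀ s ∈ T.1, D.mass Y.1.1 ≤ Y.1.1 s.val) ∧
      ∀ s ∈ hZf.toFinset, s ∉ T.1 → Y.1.1 s.val ≤ D.mass Y.1.1}
  have hc : ∀ r, Continuous fun Y : TT h k Z => Y.1.1 r := fun r =>
    (continuous_coordA r).comp continuous_subtype_val
  have hm : Continuous fun Y : TT h k Z => D.mass Y.1.1 := continuous_massA.comp continuous_subtype_val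
  refine LocallyFinite.continuous (f := C) (locallyFinite_of_finite C) ?_ ?_ ?_
  · rw [eq_univ_iff_forall]
    intro Y
    rw [mem_iUnion]
    refine ⟨⟨crs h hZf Y.1.1, ?_⟩, ?_, ?_⟩
    · rw [Finset.mem_powerset]
      exact Finset.filter_subset _ _
    · intro s hs
      exact ((mem_crs h hZf).1 hs).2.le
    · intro s hs hns
      by_contra hcon
      push Not at hcon
      exact hns ((mem_crs h hZf).2 ⟨hZf.mem_toFinset.1 hs, hcon⟩)
  · intro T
    have e : C T = (⋂ s ∈ T.1, {Y : TT h k Z | D.mass Y.1.1 ≤ Y.1.1 s.val}) ∩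
        ⋂ s ∈ hZf.toFinset, ⋂ _ : s ∉ T.1, {Y : TT h k Z | Y.1.1 s.val ≤ D.mass Y.1.1} := by
      ext Y
      simp [C]
    rw [e]
    refine (isClosed_biInter fun s _ => isClosed_le hm (hc _)).inter
      (isClosed_biInter fun s _ => isClosed_iInter fun _ => isClosed_le (hc _) hm)
  · intro T
    have hT : (T.1 : Set (SS h)) ⊆ Z := by
      intro s hs
      exact hZf.mem_toFinset.1 (Finset.mem_powerset.1 T.2 hs)
    have h1 : Continuous fun Y : TT h k Z => Unf.mk (mirs h) (w * gT h Z T.1)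
        (CH.mk h (foldf h Z Y.1.1) (foldf_mem h Y.2)) :=
      (Unf.continuous_mk_right _).comp (continuous_foldf h)
    refine h1.continuousOn.congr fun Y hY => ?_
    refine mk_eq h w hZc Y (crs_sub h hZf _) hT fun s hs hss => ?_
    by_cases h2 : s ∈ T.1
    · have h3 : s ∉ crs h hZf Y.1.1 := fun h => (hss.1 h) h2
      rw [mem_crs] at h3
      push Not at h3
      exact le_antisymm (h3 hs) (hY.1 s h2)
    · have h3 : s ∈ crs h hZf Y.1.1 := hss.2 h2
      rw [mem_crs] at h3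
      have h4 := hY.2 s (hZf.mem_toFinset.2 hs) h2
      linarith [h3.2]

theorem FF_Gm (Y : TT h k Z) : FF h w (Gm h w hZf Y) = Y.1.1 := by
  have hsub := crs_sub h hZf Y.1.1
  unfold Gm
  rw [FF_mk, inv_mul_cancel_left, CH.val_mk]
  funext r
  by_cases hr : r ∈ D.Kp
  · rw [refl_Kp h _ _ hr, foldf_Kp h _ hr]
  · have hs : (SS.mk h r hr).val = r := rfl
    rw [← hs]
    by_cases e1 : SS.mk h r hr ∈ crs h hZf Y.1.1
    · have e2 := (mem_crs h hZf).1 e1
      rw [refl_pos h _ ((gT_par h hsub _).2 e1), mass_foldf, foldf_pos h _ e2.1, min_eq_right]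
      · ring
      · linarith [e2.2]
    · rw [refl_neg h _ (fun e => e1 ((gT_par h hsub _).1 e))]
      by_cases e2 : SS.mk h r hr ∈ Z
      · rw [foldf_pos h _ e2, min_eq_left]
        rw [mem_crs] at e1
        push Not at e1
        linarith [e1 e2]
      · rw [foldf_neg h _ e2]

include hk in
theorem Gm_mem (Y : TT h k Z) : Gm h w hZf Y ∈ Unf.basic (mirs h) w Z (OO h k Z) := by
  unfold Gm
  rw [Unf.mk_mem_basic (OO_mir h)]
  refine ⟨⟨?_, fun s hs => ?_, fun s hs => ?_⟩, ?_⟩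
  · rw [CH.val_mk, foldf_Kp h _ hk]
    exact Y.1.2.2
  · rw [CH.val_mk, foldf_pos h _ hs]
    have h1 := Y.2.1 s hs
    exact (lt_min h1.1 (by linarith)).ne'
  · by_contra hcon
    have h1 : foldf h Z Y.1.1 s.val = D.mass (foldf h Z Y.1.1) := hs.2
    rw [mass_foldf, foldf_neg h _ hcon] at h1
    exact (Y.2.2 s hcon).ne h1
  · rw [inv_mul_cancel_left]
    exact gT_mem h (crs_sub h hZf _)

include hk hZc in
theorem Gm_FF {u : UU h} (hu : u ∈ Unf.basic (mirs h) w Z (OO h k Z)) (hm : FF h w u ∈ D.Y ∧ FF h w u k ≠ 0)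
    (ht : (⟨FF h w u, hm⟩ : {X : R → ℝ // X ∈ D.Y ∧ X k ≠ 0}) ∈ TT h k Z) :
    Gm h w hZf ⟨⟨FF h w u, hm⟩, ht⟩ = u := by
  obtain ⟨v, X, rfl⟩ := Unf.exists_rep u
  rw [Unf.mk_mem_basic (OO_mir h)] at hu
  obtain ⟨⟨h1, h2, h3⟩, h4⟩ := hu
  have hp : ∀ s, par (w⁻¹ * v) s = 1 → s ∈ Z := fun s hs =>
    par_of_mem_closure h4 (by rw [hs]; decide)
  have hX : foldf h Z (FF h w (Unf.mk (mirs h) v X)) = X.val := by
    rw [FF_mk]
    funext r
    by_cases hr : r ∈ D.Kp
    · rw [foldf_Kp h _ hr, refl_Kp h _ _ hr]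
    · have hs : (SS.mk h r hr).val = r := rfl
      rw [← hs]
      have hle := X.mem.2 (SS.mk h r hr).val (SS.mk h r hr).prop
      by_cases e2 : SS.mk h r hr ∈ Z
      · rw [foldf_pos h _ e2, mass_refl]
        by_cases e1 : par (w⁻¹ * v) (SS.mk h r hr) = 1
        · rw [refl_pos h _ e1, min_eq_right]
          · ring
          · linarith
        · rw [refl_neg h _ e1, min_eq_left]
          linarith
      · rw [foldf_neg h _ e2, refl_neg h _ (fun e => e2 (hp _ e))]
  have hX' : CH.mk h (foldf h Z (FF h w (Unf.mk (mirs h) v X)))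
      (foldf_mem h (Y := ⟨FF h w (Unf.mk (mirs h) v X), hm⟩) ht) = X := CH.ext hX
  unfold Gm
  simp only
  rw [hX', Unf.mk_eq_mk]
  refine ⟨rfl, ?_⟩
  have hsub := crs_sub h hZf (FF h w (Unf.mk (mirs h) v X))
  rw [mul_inv_rev, mul_assoc]
  refine mem_closure_of_par hZc (Subgroup.mul_mem _ (Subgroup.inv_mem _ (gT_mem h hsub)) h4)
    fun s hs => ?_
  rw [par_mul, par_inv, Finsupp.add_apply] at hs
  have h5 := gT_par h hsub s
  have h6 := mem_crs h hZf (Y := FF h w (Unf.mk (mirs h) v X)) (s := s)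
  rw [← h5] at h6
  rw [FF_mk, mass_refl] at h6
  have hle := X.mem.2 s.val s.prop
  refine ⟨s.prop, ?_⟩
  by_cases e1 : par (w⁻¹ * v) s = 1
  · have h7 : ¬ (s ∈ Z ∧ D.mass X.val < refl h (par (w⁻¹ * v)) X.val s.val) := by
      intro h8
      rw [FF_mk] at hs
      have h9 := h6.2 h8
      rw [h9, e1] at hs
      exact hs (by decide)
    have h8 : ¬ D.mass X.val < refl h (par (w⁻¹ * v)) X.val s.val := fun h9 => h7 ⟨hp s e1, h9⟩
    rw [refl_pos h _ e1] at h8
    change X.val s.val = D.mass X.val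
    linarith
  · exfalso
    have e0 : par (w⁻¹ * v) s = 0 := (zmod2_cases _).resolve_right e1
    rw [e0, add_zero] at hs
    have h9 := (zmod2_cases _).resolve_left hs
    have h10 := (h6.1 h9).2
    rw [refl_neg h _ e1] at h10
    linarith

include hk hZf hZc in
theorem isOpenEmbedding_FF : ∃ f : {u : UU h // u ∈ Unf.basic (mirs h) w Z (OO h k Z)} →
    {X : R → ℝ // X ∈ D.Y ∧ X k ≠ 0}, IsOpenEmbedding f ∧ ∀ u, (f u).1 = FF h w u.1 := by
  let f : {u : UU h // u ∈ Unf.basic (mirs h) w Z (OO h k Z)} → {X : R → ℝ // X ∈ D.Y ∧ X k ≠ 0} :=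
    fun u => ⟨FF h w u.1, (FF_mem h w hk u.2).choose⟩
  have hf : ∀ u, f u ∈ TT h k Z := fun u => (FF_mem h w hk u.2).choose_spec
  refine ⟨f, ?_, fun _ => rfl⟩
  let e : {u : UU h // u ∈ Unf.basic (mirs h) w Z (OO h k Z)} ≃ₜ TT h k Z := {
    toFun := fun u => ⟨f u, hf u⟩
    invFun := fun Y => ⟨Gm h w hZf Y, Gm_mem h w hk hZf Y⟩
    left_inv := fun u => Subtype.ext (Gm_FF h w hk hZf hZc u.2 _ _)
    right_inv := fun Y => Subtype.ext (Subtype.ext (FF_Gm h w hZf Y))
    continuous_toFun := by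
      refine Continuous.subtype_mk (Continuous.subtype_mk ?_ _) _
      exact (continuous_FF h w).comp continuous_subtype_val
    continuous_invFun := (continuous_Gm h w hZf hZc).subtype_mk _ }
  have h1 : IsOpenEmbedding (Subtype.val : TT h k Z → {X : R → ℝ // X ∈ D.Y ∧ X k ≠ 0}) :=
    (isOpen_TT h hk hZf).isOpenEmbedding_subtypeVal
  exact h1.comp e.isOpenEmbedding

end Pool.Agent.Helper35.CircCh

namespace Pool.Agent.Helper35.CircCh
open Pool.Agent.Helper82.Circ

variable {E R B T : Type} [Group E] [PartialOrder R] [MulAction E R] [Fintype B]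
  {D : CD R} {d : R → B → ℝ} {τ : R → T} {z : E} (h : MDz E R B T D d τ z)

theorem exists_chart (u : UU h) : ∃ (e : OpenPartialHomeomorph (UU h) (B → ℝ)) (w : WW h) (k : R),
    u ∈ e.source ∧ k ∈ D.Kp ∧ ∀ (v : WW h) (X : CH h), Unf.mk (mirs h) v X ∈ e.source →
      X.val k ≠ 0 ∧ (∀ s, par (w⁻¹ * v) s = 1 → X.val s.val ≠ 0) ∧
      e (Unf.mk (mirs h) v X) = ∑ᶠ r, refl h (par (w⁻¹ * v)) X.val r • d r := by
  obtain ⟨w, X0, rfl⟩ := Unf.exists_rep u
  obtain ⟨k, hk, hk0⟩ := X0.mem.1.2.2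
  have hZf : (mirS h X0).Finite := (mirs h).finite X0
  have hZc : ∀ s ∈ mirS h X0, ∀ t ∈ mirS h X0, s ≠ t → cm h s t := (mirs h).clique X0
  obtain ⟨f, hf, hfu⟩ := isOpenEmbedding_FF h w hk hZf hZc
  have hopen : IsOpen (Unf.basic (mirs h) w (mirS h X0) (OO h k (mirS h X0))) :=
    Unf.isOpen_basic (OO_mir h) (isOpen_OO h hZf)
  have hmem : Unf.mk (mirs h) w X0 ∈ Unf.basic (mirs h) w (mirS h X0) (OO h k (mirS h X0)) := by
    rw [Unf.mk_mem_basic (OO_mir h)]
    refine ⟨⟨hk0, fun s hs => ?_, Subset.rfl⟩, ?_⟩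
    · have h1 : X0.val s.val = D.mass X0.val := hs.2
      rw [h1]
      exact (CD.mass_pos X0.mem.1).ne'
    · rw [inv_mul_cancel]
      exact Subgroup.one_mem _
  have : Nonempty {u : UU h // u ∈ Unf.basic (mirs h) w (mirS h X0) (OO h k (mirS h X0))} :=
    ⟨⟨_, hmem⟩⟩
  have hΦ := (h.emb k hk).comp hf
  have hi : IsOpenEmbedding (Subtype.val : {u : UU h // u ∈ Unf.basic (mirs h) w (mirS h X0)
      (OO h k (mirS h X0))} → UU h) := hopen.isOpenEmbedding_subtypeVal
  let e1 := hi.toOpenPartialHomeomorph _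
  let e2 := hΦ.toOpenPartialHomeomorph _
  refine ⟨e1.symm.trans e2, w, k, ?_, hk, ?_⟩
  · rw [OpenPartialHomeomorph.trans_source]
    refine ⟨?_, ?_⟩
    · rw [OpenPartialHomeomorph.symm_source]
      simp only [e1, IsOpenEmbedding.toOpenPartialHomeomorph_target]
      exact ⟨⟨_, hmem⟩, rfl⟩
    · simp [e2]
  · intro v X hvX
    rw [OpenPartialHomeomorph.trans_source] at hvX
    have h1 : Unf.mk (mirs h) v X ∈ Unf.basic (mirs h) w (mirS h X0) (OO h k (mirS h X0)) := by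
      have h2 := hvX.1
      rw [OpenPartialHomeomorph.symm_source] at h2
      simp only [e1, IsOpenEmbedding.toOpenPartialHomeomorph_target] at h2
      obtain ⟨u, hu⟩ := h2
      rw [← hu]
      exact u.2
    have h3 : e1.symm (Unf.mk (mirs h) v X) = ⟨_, h1⟩ := by
      have := hi.toOpenPartialHomeomorph_left_inv (x := ⟨Unf.mk (mirs h) v X, h1⟩)
      exact this
    have h4 := (Unf.mk_mem_basic (OO_mir h)).1 h1
    refine ⟨h4.1.1, fun s hs => h4.1.2.1 s (par_of_mem_closure h4.2 (by rw [hs]; decide)), ?_⟩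
    rw [OpenPartialHomeomorph.coe_trans, Function.comp_apply, h3]
    change ∑ᶠ r, (f ⟨_, h1⟩).1 r • d r = _
    rw [hfu]
    rfl

end Pool.Agent.Helper35.CircCh
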